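import Mathlib

/-!
# Edge isoperimetry in the cube: exact stability for sets far from subcubes (core)
-/

open Finset

namespace H44AB

/-! ## The extremal function -/

/-- Number of ones in the binary expansion. -/
def pc : ℕ → ℕ
  | 0 => 0
  | (n+1) => (n+1) % 2 + pc ((n+1)/2)
decreasing_by omega

/-- Twice the maximum number of edges spanned by `s` vertices. -/
def E (s : ℕ) : ℕ := ∑ i ∈ range s, 2 * pc i

lemma pc_zero : pc 0 = 0 := by unfold pc; rfl

lemma pc_two_mul (i : ℕ) : pc (2*i) = pc i := by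
  cases i with
  | zero => rfl
  | succ k =>
    rw [show 2*(k+1) = (2*k+1)+1 by ring, pc]
    have h1 : (2*k+1+1) % 2 = 0 := by omega
    have h2 : (2*k+1+1)/2 = k+1 := by omega
    rw [h1, h2]; omega

lemma pc_odd (i : ℕ) : pc (2*i+1) = pc i + 1 := by
  rw [pc]
  have h1 : (2*i+1) % 2 = 1 := by omega
  have h2 : (2*i+1)/2 = i := by omega
  rw [h1, h2]; omega

lemma E_zero : E 0 = 0 := rfl

lemma E_succ (s : ℕ) : E (s+1) = E s + 2 * pc s := by
  unfold E; rw [sum_range_succ]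

lemma E_even (s : ℕ) : E (2*s) = 2 * E s + 2 * s := by
  induction s with
  | zero => rfl
  | succ k ih =>
    rw [show 2*(k+1) = 2*k+1+1 by ring, E_succ, E_succ, ih, E_succ, pc_two_mul, pc_odd]
    ring

lemma E_odd (s : ℕ) : E (2*s+1) = E s + E (s+1) + 2 * s := by
  rw [E_succ, E_even, E_succ, pc_two_mul]; ring

lemma E_one : E 1 = 0 := by rw [show 1 = 0+1 by rfl, E_succ, E_zero, pc_zero]

lemma E_superadd : ∀ (t a b : ℕ), a + b = t → b ≤ a → E a + E b + 2*b ≤ E (a+b) := by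
  intro t
  induction t using Nat.strong_induction_on with
  | _ t ih =>
    intro a b hab hba
    rcases Nat.eq_zero_or_pos b with hb0 | hb0
    · subst hb0; simp [E_zero]
    rcases Nat.even_or_odd' a with ⟨p, hp | hp⟩ <;> rcases Nat.even_or_odd' b with ⟨q, hq | hq⟩
    · subst hp; subst hq
      have h := ih (p+q) (by omega) p q rfl (by omega)
      rw [show 2*p+2*q = 2*(p+q) by ring, E_even, E_even, E_even]
      omega
    · subst hp; subst hq
      have h := ih (p+q) (by omega) p q rfl (by omega)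
      have h' := ih (p+(q+1)) (by omega) p (q+1) rfl (by omega)
      rw [show 2*p+(2*q+1) = 2*(p+q)+1 by ring, E_odd, E_even, E_odd]
      rw [show p+(q+1) = p+q+1 by ring] at h'
      omega
    · subst hp; subst hq
      have h := ih (p+q) (by omega) p q rfl (by omega)
      have h' := ih ((p+1)+q) (by omega) (p+1) q rfl (by omega)
      rw [show 2*p+1+2*q = 2*(p+q)+1 by ring, E_odd, E_odd, E_even]
      rw [show (p+1)+q = p+q+1 by ring] at h'
      omega
    · subst hp; subst hq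
      have h' := ih ((p+1)+q) (by omega) (p+1) q rfl (by omega)
      rw [show 2*p+1+(2*q+1) = 2*(p+q+1) by ring, E_odd, E_odd, E_even]
      rw [show (p+1)+q = p+q+1 by ring] at h'
      rcases Nat.lt_or_ge q p with hqp | hqp
      · have h := ih (p+(q+1)) (by omega) p (q+1) rfl (by omega)
        rw [show p+(q+1) = p+q+1 by ring] at h
        omega
      · have hqp' : q = p := by omega
        subst hqp'
        omega

/-- deficiency of the extremal function relative to dimension `D` -/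
def ph (D a : ℕ) : ℤ := (D:ℤ) * a - E a

lemma ph_even (D s : ℕ) : ph (D+1) (2*s) = 2 * ph D s := by
  unfold ph; rw [E_even]; push_cast; ring

lemma ph_odd (D s : ℕ) : ph (D+1) (2*s+1) = ph D s + ph D (s+1) + 1 := by
  unfold ph; rw [E_odd]; push_cast; ring

lemma ph_facts_aux (D : ℕ) : ∀ a : ℕ,
    (4 * (a:ℤ) ≤ 2^(D+2) → 2 * (a:ℤ) ≤ ph (D+2) a) ∧
    ((2:ℤ)^(D+2) ≤ 4*a → 4*(a:ℤ) ≤ 3 * 2^(D+2) → (2:ℤ)^(D+2) ≤ 2 * ph (D+2) a) ∧
    (3 * (2:ℤ)^(D+2) ≤ 4*a → 4*(a:ℤ) ≤ 4 * 2^(D+2) → 2*((2:ℤ)^(D+2) - a) ≤ ph (D+2) a) ∧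
    (4 * (2:ℤ)^(D+2) ≤ 4*a → 4*(a:ℤ) ≤ 5 * 2^(D+2) → 0 ≤ ph (D+2) a) ∧
    (5 * (2:ℤ)^(D+2) ≤ 4*a → 4*(a:ℤ) ≤ 7 * 2^(D+2) → 5*(2:ℤ)^(D+2) - 4*a ≤ 2 * ph (D+2) a) := by
  induction D with
  | zero =>
    intro a
    have e2 : E 2 = 2 := by rw [show 2 = 2*1 by rfl, E_even, E_one]
    have e3 : E 3 = 4 := by rw [show 3 = 2*1+1 by rfl, E_odd, E_one, e2]
    have e4 : E 4 = 8 := by rw [show 4 = 2*2 by rfl, E_even, e2]
    have e5 : E 5 = 10 := by rw [show 5 = 2*2+1 by rfl, E_odd, e2, e3]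
    have e6 : E 6 = 14 := by rw [show 6 = 2*3 by rfl, E_even, e3]
    have e7 : E 7 = 18 := by rw [show 7 = 2*3+1 by rfl, E_odd, e3, e4]
    by_cases ha : a ≤ 7
    · interval_cases a <;> unfold ph <;> simp [E_zero, E_one, e2, e3, e4, e5, e6, e7]
    · push Not at ha
      have : (8:ℤ) ≤ a := by exact_mod_cast ha
      refine ⟨?_, ?_, ?_, ?_, ?_⟩ <;> intros <;> norm_num at * <;> omega
  | succ D ih =>
    intro a
    have hN : (2:ℤ)^(D+1+2) = 2 * 2^(D+2) := by ring
    have hK : (2:ℤ)^(D+2) = 4 * 2^D := by ring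
    rcases Nat.even_or_odd' a with ⟨s, hs | hs⟩
    · subst hs
      obtain ⟨h1, h2, h3, h4, h5⟩ := ih s
      rw [show D+1+2 = (D+2)+1 by ring, ph_even, show (2:ℤ)^(D+2+1) = 2 * 2^(D+2) by ring]
      generalize ph (D+2) s = P at *
      generalize (2:ℤ)^(D+2) = N at *
      push_cast
      refine ⟨?_, ?_, ?_, ?_, ?_⟩
      · intro h; have := h1 (by linarith); linarith
      · intro h h'; have := h2 (by linarith) (by linarith); linarith
      · intro h h'; have := h3 (by linarith) (by linarith); linarith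
      · intro h h'; have := h4 (by linarith) (by linarith); linarith
      · intro h h'; have := h5 (by linarith) (by linarith); linarith
    · subst hs
      obtain ⟨h1, h2, h3, h4, h5⟩ := ih s
      obtain ⟨g1, g2, g3, g4, g5⟩ := ih (s+1)
      rw [show D+1+2 = (D+2)+1 by ring, ph_odd, show (2:ℤ)^(D+2+1) = 2 * 2^(D+2) by ring]
      rw [hK] at *
      generalize ph (D+2) s = P at *
      generalize ph (D+2) (s+1) = Q at *
      generalize (2:ℤ)^D = K at *
      push_cast at *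
      refine ⟨?_, ?_, ?_, ?_, ?_⟩
      · intro h; have := h1 (by omega); have := g1 (by omega); omega
      · intro h h'; have := h2 (by omega) (by omega); have := g2 (by omega) (by omega); omega
      · intro h h'; have := h3 (by omega) (by omega); have := g3 (by omega) (by omega); omega
      · intro h h'; have := h4 (by omega) (by omega); have := g4 (by omega) (by omega); omega
      · intro h h'; have := h5 (by omega) (by omega); have := g5 (by omega) (by omega); omega

lemma ph_facts (D : ℕ) (a : ℕ) :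
    (4 * (a:ℤ) ≤ 2^D → 2 * (a:ℤ) ≤ ph D a) ∧
    ((2:ℤ)^D ≤ 4*a → 4*(a:ℤ) ≤ 3 * 2^D → (2:ℤ)^D ≤ 2 * ph D a) ∧
    (3 * (2:ℤ)^D ≤ 4*a → 4*(a:ℤ) ≤ 4 * 2^D → 2*((2:ℤ)^D - a) ≤ ph D a) ∧
    (4 * (2:ℤ)^D ≤ 4*a → 4*(a:ℤ) ≤ 5 * 2^D → 0 ≤ ph D a) ∧
    (5 * (2:ℤ)^D ≤ 4*a → 4*(a:ℤ) ≤ 7 * 2^D → 5*(2:ℤ)^D - 4*a ≤ 2 * ph D a) := by
  match D with
  | 0 =>
    by_cases ha : a ≤ 1
    · interval_cases a <;> unfold ph <;> simp [E_zero, E_one]
    · push Not at ha
      have : (2:ℤ) ≤ a := by exact_mod_cast ha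
      refine ⟨?_, ?_, ?_, ?_, ?_⟩ <;> intros <;> norm_num at * <;> omega
  | 1 =>
    have e2 : E 2 = 2 := by rw [show 2 = 2*1 by rfl, E_even, E_one]
    have e3 : E 3 = 4 := by rw [show 3 = 2*1+1 by rfl, E_odd, E_one, e2]
    by_cases ha : a ≤ 3
    · interval_cases a <;> unfold ph <;> simp [E_zero, E_one, e2, e3]
    · push Not at ha
      have : (4:ℤ) ≤ a := by exact_mod_cast ha
      refine ⟨?_, ?_, ?_, ?_, ?_⟩ <;> intros <;> norm_num at * <;> omega
  | (D+2) => exact ph_facts_aux D a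

/-- chord bound between consecutive powers of two -/
lemma E_chord (m : ℕ) : ∀ s : ℕ, 2^m ≤ s → s ≤ 2^(m+1) → E s + 2^(m+1) ≤ (m+2)*s := by
  induction m with
  | zero =>
    intro s h1 h2
    have e2 : E 2 = 2 := by rw [show 2 = 2*1 by rfl, E_even, E_one]
    norm_num at h1 h2
    interval_cases s
    · simp [E_one]
    · simp [e2]
  | succ m ih =>
    intro s h1 h2
    have p1 : 2^(m+1+1) = 2 * 2^(m+1) := by ring
    have p2 : 2^(m+1) = 2 * 2^m := by ring
    rcases Nat.even_or_odd' s with ⟨r, hr | hr⟩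
    · subst hr
      have h := ih r (by omega) (by omega)
      rw [E_even, p1]
      nlinarith
    · subst hr
      have h := ih r (by omega) (by omega)
      have h' := ih (r+1) (by omega) (by omega)
      rw [E_odd, p1]
      nlinarith

end H44AB
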