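import Pool.Agent.H44AB.Slice

open Finset

namespace H44AB

/-- the conclusion of the stability statement for the set `A` in dimension `D` -/
def Good {n : ℕ} (D : ℕ) (A : Finset (Fin n → Bool)) : Prop :=
  (2:ℤ)^D ≤ 2 * Phi D A ∧ True ∨ ((2:ℤ)^D ≤ A.card ∧ 5 * (2:ℤ)^D - 4 * A.card ≤ 2 * Phi D A)

lemma Good_iff {n : ℕ} (D : ℕ) (A : Finset (Fin n → Bool)) :
    Good D A ↔ ((2:ℤ)^D ≤ 2 * Phi D A ∨ ((2:ℤ)^D ≤ A.card ∧ 5 * (2:ℤ)^D - 4 * A.card ≤ 2 * Phi D A)) := by
  unfold Good; simp

def Far {n : ℕ} (D : ℕ) (A : Finset (Fin n → Bool)) : Prop :=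
  ∀ C, IsSub n D C → 4 * ((A ∩ C).card : ℤ) ≤ 3 * 2^D

lemma Phi_facts {n : ℕ} (D : ℕ) (A : Finset (Fin n → Bool)) :
    (4 * (A.card:ℤ) ≤ 2^D → 2 * (A.card:ℤ) ≤ Phi D A) ∧
    ((2:ℤ)^D ≤ 4*A.card → 4*(A.card:ℤ) ≤ 3 * 2^D → (2:ℤ)^D ≤ 2 * Phi D A) ∧
    (3 * (2:ℤ)^D ≤ 4*A.card → 4*(A.card:ℤ) ≤ 4 * 2^D → 2*((2:ℤ)^D - A.card) ≤ Phi D A) ∧
    (4 * (2:ℤ)^D ≤ 4*A.card → 4*(A.card:ℤ) ≤ 5 * 2^D → 0 ≤ Phi D A) ∧
    (5 * (2:ℤ)^D ≤ 4*A.card → 4*(A.card:ℤ) ≤ 7 * 2^D → 5*(2:ℤ)^D - 4*A.card ≤ 2 * Phi D A) := by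
  have h := ph_le_Phi D A
  obtain ⟨h1, h2, h3, h4, h5⟩ := ph_facts D A.card
  refine ⟨?_, ?_, ?_, ?_, ?_⟩
  · intro a; exact (h1 a).trans h
  · intro a b; have := h2 a b; linarith
  · intro a b; have := h3 a b; linarith
  · intro a b; have := h4 a b; linarith
  · intro a b; have := h5 a b; linarith

/-- consequences of being close to a subcube -/
lemma close_facts {n : ℕ} (D : ℕ) (B C : Finset (Fin n → Bool)) (hC : IsSub n D C)
    (hb : 2 * (B.card : ℤ) < 3 * 2^D) (hβ : 3 * (2:ℤ)^D < 4 * (B ∩ C).card) :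
    (B.card : ℤ) = (B ∩ C).card + (B \ C).card ∧
    ((B ∩ C).card : ℤ) ≤ 2^D ∧
    (4 * ((B \ C).card : ℤ) ≤ 2^D → 2 * ((2:ℤ)^D - (B ∩ C).card) ≤ Phi D B) ∧
    ((2:ℤ)^D ≤ 4 * ((B \ C).card : ℤ) → (2:ℤ)^D ≤ B.card ∧ 5 * (2:ℤ)^D - 4 * B.card ≤ 2 * Phi D B) := by
  have hcard := card_IsSub _ _ _ hC
  have hK := K_lemma _ _ _ hC B
  have e1 : B.card = (B ∩ C).card + (B \ C).card := by
    rw [Finset.card_inter_add_card_sdiff]
  have e2' : C.card = (B ∩ C).card + (C \ B).card := by
    rw [Finset.inter_comm, Finset.card_inter_add_card_sdiff]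
  rw [hcard] at e2'
  have e1z : (B.card : ℤ) = (B ∩ C).card + (B \ C).card := by exact_mod_cast e1
  have e2z : (2:ℤ)^D = (B ∩ C).card + (C \ B).card := by exact_mod_cast e2'
  have nn1 : (0:ℤ) ≤ (C \ B).card := by positivity
  obtain ⟨z1, -, -, -, -⟩ := Phi_facts D (C \ B)
  obtain ⟨y1, y2, -, -, -⟩ := Phi_facts D (B \ C)
  refine ⟨e1z, by linarith, ?_, ?_⟩
  · intro h
    have a1 := z1 (by linarith)
    have a2 := y1 h
    linarith
  · intro h
    have a1 := z1 (by linarith)
    have a2 := y2 h (by linarith)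
    constructor
    · linarith
    · linarith

lemma card_inter_bound {n : ℕ} (B0 B1 C : Finset (Fin n → Bool)) :
    ((B0 ∩ B1).card : ℤ) ≤ (B0 ∩ C).card + (B1 \ C).card := by
  have : B0 ∩ B1 ⊆ (B0 ∩ C) ∪ (B1 \ C) := by
    intro x hx
    simp only [mem_inter, mem_union, mem_sdiff] at *
    tauto
  have h := (card_le_card this).trans (card_union_le _ _)
  exact_mod_cast h

lemma card_inter_bound2 {n : ℕ} (B0 B1 C0 C1 : Finset (Fin n → Bool)) :
    ((B0 ∩ B1).card : ℤ) ≤ (C0 ∩ C1).card + (B0 \ C0).card + (B1 \ C1).card := by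
  have : B0 ∩ B1 ⊆ ((C0 ∩ C1) ∪ (B0 \ C0)) ∪ (B1 \ C1) := by
    intro x hx
    simp only [mem_inter, mem_union, mem_sdiff] at *
    tauto
  have h := (card_le_card this).trans ((card_union_le _ _).trans
    (Nat.add_le_add_right (card_union_le _ _) _))
  exact_mod_cast h

/-- The case of two halves, both of middle size, in dimension `D+1`. -/
lemma step_mid {n : ℕ} (D : ℕ) (B0 B1 : Finset (Fin n → Bool))
    (IH : ∀ (A : Finset (Fin n → Bool)), Far D A → (2:ℤ)^D ≤ 4 * A.card →
      4 * (A.card:ℤ) ≤ 7 * 2^D → Good D A)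
    (hle : (B1.card : ℤ) ≤ B0.card)
    (far2 : ∀ C, IsSub n D C → 2 * (((B0 ∩ C).card : ℤ) + (B1 ∩ C).card) ≤ 3 * 2^D)
    (h1 : (2:ℤ)^D < 2 * B1.card) (h0 : 2 * (B0.card : ℤ) < 3 * 2^D)
    (_hs1 : 3 * (2:ℤ)^D ≤ 2 * (B0.card + B1.card)) (_hs2 : 2 * ((B0.card : ℤ) + B1.card) ≤ 5 * 2^D) :
    (2 * (2:ℤ)^D ≤ 2 * (B0.card + B1.card + Phi D B0 + Phi D B1 - 2 * (B0 ∩ B1).card)) ∨
    (2 * (2:ℤ)^D ≤ B0.card + B1.card ∧
      10 * (2:ℤ)^D - 4 * (B0.card + B1.card) ≤
        2 * (B0.card + B1.card + Phi D B0 + Phi D B1 - 2 * (B0 ∩ B1).card)) := by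
  have i0 : ((B0 ∩ B1).card : ℤ) ≤ B0.card := by exact_mod_cast card_le_card inter_subset_left
  have i1 : ((B0 ∩ B1).card : ℤ) ≤ B1.card := by exact_mod_cast card_le_card inter_subset_right
  -- the far-type conclusion for both halves suffices
  have FF : ∀ (_ : Good D B0) (_ : Good D B1),
      (2 * (2:ℤ)^D ≤ 2 * (B0.card + B1.card + Phi D B0 + Phi D B1 - 2 * (B0 ∩ B1).card)) ∨
      (2 * (2:ℤ)^D ≤ B0.card + B1.card ∧
      10 * (2:ℤ)^D - 4 * (B0.card + B1.card) ≤
        2 * (B0.card + B1.card + Phi D B0 + Phi D B1 - 2 * (B0 ∩ B1).card)) := by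
    intro g0 g1
    rw [Good_iff] at g0 g1
    generalize Phi D B0 = P0 at *
    generalize Phi D B1 = P1 at *
    generalize (2:ℤ)^D = M at *
    generalize (B0.card : ℤ) = b0 at *
    generalize (B1.card : ℤ) = b1 at *
    generalize ((B0 ∩ B1).card : ℤ) = I at *
    omega
  by_cases f0 : Far D B0
  · have g0 : Good D B0 := IH B0 f0 (by linarith) (by linarith)
    by_cases f1 : Far D B1
    · exact FF g0 (IH B1 f1 (by linarith) (by linarith))
    · unfold Far at f1
      push Not at f1
      obtain ⟨C, hC, hβ⟩ := f1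
      obtain ⟨e, e', k1, k2⟩ := close_facts D B1 C hC (by linarith) hβ
      by_cases hy : (2:ℤ)^D ≤ 4 * ((B1 \ C).card : ℤ)
      · exact FF g0 (by rw [Good_iff]; right; exact k2 hy)
      · have k1' := k1 (by linarith)
        have hI := card_inter_bound B0 B1 C
        have hf := far2 C hC
        rw [Good_iff] at g0
        generalize Phi D B0 = P0 at *
        generalize Phi D B1 = P1 at *
        generalize (2:ℤ)^D = M at *
        generalize (B0.card : ℤ) = b0 at *
        generalize (B1.card : ℤ) = b1 at *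
        generalize ((B0 ∩ B1).card : ℤ) = I at *
        generalize ((B0 ∩ C).card : ℤ) = u at *
        have := Int.natCast_nonneg ((B1 \ C).card)
        generalize ((B1 \ C).card : ℤ) = y at *
        generalize ((B1 ∩ C).card : ℤ) = β at *
        omega
  · unfold Far at f0
    push Not at f0
    obtain ⟨C0, hC0, hβ0⟩ := f0
    obtain ⟨e0, e0', k01, k02⟩ := close_facts D B0 C0 hC0 (by linarith) hβ0
    by_cases f1 : Far D B1
    · have g1 : Good D B1 := IH B1 f1 (by linarith) (by linarith)
      by_cases hy : (2:ℤ)^D ≤ 4 * ((B0 \ C0).card : ℤ)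
      · exact FF (by rw [Good_iff]; right; exact k02 hy) g1
      · have k1' := k01 (by linarith)
        have hI := card_inter_bound B1 B0 C0
        rw [Finset.inter_comm B1 B0] at hI
        have hf := far2 C0 hC0
        rw [Good_iff] at g1
        generalize Phi D B0 = P0 at *
        generalize Phi D B1 = P1 at *
        generalize (2:ℤ)^D = M at *
        generalize (B0.card : ℤ) = b0 at *
        generalize (B1.card : ℤ) = b1 at *
        generalize ((B0 ∩ B1).card : ℤ) = I at *
        generalize ((B1 ∩ C0).card : ℤ) = u at *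
        have := Int.natCast_nonneg ((B0 \ C0).card)
        generalize ((B0 \ C0).card : ℤ) = y at *
        generalize ((B0 ∩ C0).card : ℤ) = β at *
        omega
    · unfold Far at f1
      push Not at f1
      obtain ⟨C1, hC1, hβ1⟩ := f1
      obtain ⟨e1, e1', k11, k12⟩ := close_facts D B1 C1 hC1 (by linarith) hβ1
      have hne : C0 ≠ C1 := by
        rintro rfl
        have := far2 C0 hC0
        linarith
      have hint : 2 * ((C0 ∩ C1).card : ℤ) ≤ 2^D := by
        exact_mod_cast inter_lemma _ _ _ _ hC0 hC1 hne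
      have hI0 := card_inter_bound B1 B0 C0
      rw [Finset.inter_comm B1 B0] at hI0
      have hI1 := card_inter_bound B0 B1 C1
      have hI2 := card_inter_bound2 B0 B1 C0 C1
      have hf0 := far2 C0 hC0
      have hf1 := far2 C1 hC1
      by_cases hy0 : (2:ℤ)^D ≤ 4 * ((B0 \ C0).card : ℤ)
      · by_cases hy1 : (2:ℤ)^D ≤ 4 * ((B1 \ C1).card : ℤ)
        · exact FF (by rw [Good_iff]; right; exact k02 hy0) (by rw [Good_iff]; right; exact k12 hy1)
        · have k0' := k02 hy0
          have k1' := k11 (by linarith)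
          generalize Phi D B0 = P0 at *
          generalize Phi D B1 = P1 at *
          generalize (2:ℤ)^D = M at *
          generalize (B0.card : ℤ) = b0 at *
          generalize (B1.card : ℤ) = b1 at *
          generalize ((B0 ∩ B1).card : ℤ) = I at *
          generalize ((B0 ∩ C1).card : ℤ) = u at *
          generalize ((B1 ∩ C0).card : ℤ) = v at *
          have := Int.natCast_nonneg ((B0 \ C0).card)
          have := Int.natCast_nonneg ((B1 \ C1).card)
          generalize ((B0 \ C0).card : ℤ) = y0 at *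
          generalize ((B1 \ C1).card : ℤ) = y1 at *
          generalize ((B0 ∩ C0).card : ℤ) = β0 at *
          generalize ((B1 ∩ C1).card : ℤ) = β1 at *
          generalize ((C0 ∩ C1).card : ℤ) = w at *
          omega
      · have k0' := k01 (by linarith)
        by_cases hy1 : (2:ℤ)^D ≤ 4 * ((B1 \ C1).card : ℤ)
        · have k1' := k12 hy1
          generalize Phi D B0 = P0 at *
          generalize Phi D B1 = P1 at *
          generalize (2:ℤ)^D = M at *
          generalize (B0.card : ℤ) = b0 at *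
          generalize (B1.card : ℤ) = b1 at *
          generalize ((B0 ∩ B1).card : ℤ) = I at *
          generalize ((B0 ∩ C1).card : ℤ) = u at *
          generalize ((B1 ∩ C0).card : ℤ) = v at *
          have := Int.natCast_nonneg ((B0 \ C0).card)
          have := Int.natCast_nonneg ((B1 \ C1).card)
          generalize ((B0 \ C0).card : ℤ) = y0 at *
          generalize ((B1 \ C1).card : ℤ) = y1 at *
          generalize ((B0 ∩ C0).card : ℤ) = β0 at *
          generalize ((B1 ∩ C1).card : ℤ) = β1 at *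
          generalize ((C0 ∩ C1).card : ℤ) = w at *
          omega
        · have k1' := k11 (by linarith)
          generalize Phi D B0 = P0 at *
          generalize Phi D B1 = P1 at *
          generalize (2:ℤ)^D = M at *
          generalize (B0.card : ℤ) = b0 at *
          generalize (B1.card : ℤ) = b1 at *
          generalize ((B0 ∩ B1).card : ℤ) = I at *
          generalize ((B0 ∩ C1).card : ℤ) = u at *
          generalize ((B1 ∩ C0).card : ℤ) = v at *
          have := Int.natCast_nonneg ((B0 \ C0).card)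
          have := Int.natCast_nonneg ((B1 \ C1).card)
          generalize ((B0 \ C0).card : ℤ) = y0 at *
          generalize ((B1 \ C1).card : ℤ) = y1 at *
          generalize ((B0 ∩ C0).card : ℤ) = β0 at *
          generalize ((B1 ∩ C1).card : ℤ) = β1 at *
          generalize ((C0 ∩ C1).card : ℤ) = w at *
          omega

/-- The inductive step, halves of sizes in order. -/
lemma step {n : ℕ} (D : ℕ) (B0 B1 : Finset (Fin n → Bool))
    (IH : ∀ (D : ℕ) (A : Finset (Fin n → Bool)), Far D A → (2:ℤ)^D ≤ 4 * A.card →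
      4 * (A.card:ℤ) ≤ 7 * 2^D → Good D A)
    (hle : (B1.card : ℤ) ≤ B0.card)
    (far0 : Far D B0)
    (far2 : ∀ D', D = D' + 1 → ∀ C, IsSub n D' C →
      4 * (((B0 ∩ C).card : ℤ) + (B1 ∩ C).card) ≤ 3 * 2^D)
    (hs1 : 3 * (2:ℤ)^D < 4 * (B0.card + B1.card)) (hs2 : 4 * ((B0.card : ℤ) + B1.card) < 5 * 2^D) :
    ((2:ℤ)^D ≤ 2 * (Phi D B0 + Phi D B1 - 2 * (B0 ∩ B1).card)) ∨
    ((2:ℤ)^D ≤ B0.card + B1.card ∧
      5 * (2:ℤ)^D - 4 * (B0.card + B1.card) ≤ 2 * (Phi D B0 + Phi D B1 - 2 * (B0 ∩ B1).card)) := by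
  have i1 : ((B0 ∩ B1).card : ℤ) ≤ B1.card := by exact_mod_cast card_le_card inter_subset_right
  have nn : (0:ℤ) ≤ (B0 ∩ B1).card := by positivity
  obtain ⟨t1, t2, t3, t4, t5⟩ := Phi_facts D B1
  by_cases c1 : 4 * (B1.card : ℤ) ≤ 2^D
  · have g0 := IH D B0 far0 (by linarith) (by linarith)
    rw [Good_iff] at g0
    have := t1 c1
    clear t1 t2 t3 t4 t5 IH far0 far2
    generalize Phi D B0 = P0 at *
    generalize Phi D B1 = P1 at *
    generalize (2:ℤ)^D = M at *
    generalize (B0.card : ℤ) = b0 at *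
    generalize (B1.card : ℤ) = b1 at *
    generalize ((B0 ∩ B1).card : ℤ) = I at *
    omega
  · by_cases c0 : 3 * (2:ℤ)^D ≤ 4 * B0.card
    · have g0 := IH D B0 far0 (by linarith) (by linarith)
      rw [Good_iff] at g0
      have := t2 (by linarith) (by linarith)
      clear t1 t2 t3 t4 t5 IH far0 far2
      generalize Phi D B0 = P0 at *
      generalize Phi D B1 = P1 at *
      generalize (2:ℤ)^D = M at *
      generalize (B0.card : ℤ) = b0 at *
      generalize (B1.card : ℤ) = b1 at *
      generalize ((B0 ∩ B1).card : ℤ) = I at *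
      omega
    · rcases Nat.eq_zero_or_pos D with hD | hD
      · subst hD
        norm_num at c1 c0
        have h1 : (0:ℤ) ≤ B1.card := by positivity
        have h0 : (0:ℤ) ≤ B0.card := by positivity
        exfalso
        omega
      · obtain ⟨D', rfl⟩ : ∃ D', D = D' + 1 := ⟨D - 1, by omega⟩
        have hp : (2:ℤ)^(D'+1) = 2 * 2^D' := by ring
        rw [hp] at hs1 hs2 c1 c0 ⊢
        have hm := step_mid D' B0 B1 (fun A => IH D' A) hle
          (fun C hC => by have := far2 D' rfl C hC; rw [hp] at this; linarith)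
          (by linarith) (by linarith) (by linarith) (by linarith)
        rw [Phi_succ, Phi_succ]
        rcases hm with hm | ⟨hm, hm'⟩
        · left; linarith
        · right; constructor <;> linarith

/-- Stability: a set of size between `2^D/4` and `7·2^D/4` which is far from every `D`-dimensional
subcube has large deficiency. -/
theorem stability : ∀ (n D : ℕ) (A : Finset (Fin n → Bool)), Far D A → (2:ℤ)^D ≤ 4 * A.card →
      4 * (A.card:ℤ) ≤ 7 * 2^D → Good D A := by
  intro n
  induction n with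
  | zero =>
    intro D A far h1 h2
    obtain ⟨t1, t2, t3, t4, t5⟩ := Phi_facts D A
    rw [Good_iff]
    by_cases c1 : 4 * (A.card : ℤ) ≤ 3 * 2^D
    · left; exact t2 h1 c1
    · exfalso
      have hA : A.card ≤ 1 := by
        calc A.card ≤ (univ : Finset (Fin 0 → Bool)).card := card_le_univ A
          _ = 1 := by simp
      have hA' : (A.card : ℤ) ≤ 1 := by exact_mod_cast hA
      have hD : D = 0 := by
        by_contra hD
        obtain ⟨D', rfl⟩ : ∃ D', D = D' + 1 := ⟨D - 1, by omega⟩
        have hp : (2:ℤ)^(D'+1) = 2 * 2^D' := by ring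
        have : (1:ℤ) ≤ 2^D' := one_le_pow₀ (by norm_num)
        rw [hp] at c1
        linarith
      subst hD
      have := far univ ⟨rfl, rfl⟩
      rw [Finset.inter_univ] at this
      norm_num at c1 this
      omega
  | succ n ih =>
    intro D A far h1 h2
    obtain ⟨t1, t2, t3, t4, t5⟩ := Phi_facts D A
    rw [Good_iff]
    by_cases c1 : 4 * (A.card : ℤ) ≤ 3 * 2^D
    · left; exact t2 h1 c1
    by_cases c2 : 5 * (2:ℤ)^D ≤ 4 * A.card
    · right
      refine ⟨?_, t5 c2 h2⟩
      have : (0:ℤ) ≤ 2^D := by positivity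
      linarith
    have hcard : (A.card : ℤ) = (sl false A).card + (sl true A).card := by
      exact_mod_cast card_sl A
    have farb : ∀ b, Far D (sl b A) := by
      intro b C hC
      have := far (put b C) (IsSub_put b hC)
      have hle : (sl b A ∩ C).card ≤ (A ∩ put b C).card := by
        rw [card_sl (A ∩ put b C), sl_inter, sl_inter]
        cases b with
        | false => rw [sl_put]; omega
        | true => rw [sl_put]; omega
      have : ((sl b A ∩ C).card : ℤ) ≤ (A ∩ put b C).card := by exact_mod_cast hle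
      linarith
    have far2 : ∀ D', D = D' + 1 → ∀ C, IsSub n D' C →
        4 * (((sl false A ∩ C).card : ℤ) + (sl true A ∩ C).card) ≤ 3 * 2^D := by
      rintro D' rfl C hC
      have := far (lift C) (IsSub_lift hC)
      rw [card_sl (A ∩ lift C), sl_inter, sl_inter, sl_lift, sl_lift] at this
      push_cast at this
      exact this
    rw [Phi_sl D A, hcard]
    push Not at c1 c2
    rw [hcard] at c1 c2
    rcases le_total ((sl true A).card : ℤ) (sl false A).card with h | h
    · exact step D (sl false A) (sl true A) (fun D A => ih D A) h (farb false) far2 (by linarith) (by linarith)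
    · have := step D (sl true A) (sl false A) (fun D A => ih D A) h (farb true)
        (fun D' hD' C hC => by have := far2 D' hD' C hC; linarith) (by linarith) (by linarith)
      rw [Finset.inter_comm (sl true A)] at this
      rcases this with h | ⟨h, h'⟩
      · left; linarith
      · right; constructor <;> linarith

end H44AB
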