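import Pool.Agent.H44AB.Core

open Finset

namespace H44AB

/-- The slice of `A` at value `b` of the first coordinate. -/
def sl {n : ℕ} (b : Bool) (A : Finset (Fin (n+1) → Bool)) : Finset (Fin n → Bool) :=
  univ.filter (fun x => (Fin.cons b x : Fin (n+1) → Bool) ∈ A)

@[simp] lemma mem_sl {n : ℕ} (b : Bool) (A : Finset (Fin (n+1) → Bool)) (x : Fin n → Bool) :
    x ∈ sl b A ↔ (Fin.cons b x : Fin (n+1) → Bool) ∈ A := by simp [sl]

lemma sl_inter {n : ℕ} (b : Bool) (A B : Finset (Fin (n+1) → Bool)) :
    sl b (A ∩ B) = sl b A ∩ sl b B := by ext x; simp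

lemma sl_sdiff {n : ℕ} (b : Bool) (A B : Finset (Fin (n+1) → Bool)) :
    sl b (A \ B) = sl b A \ sl b B := by ext x; simp

lemma card_sl {n : ℕ} (A : Finset (Fin (n+1) → Bool)) :
    A.card = (sl false A).card + (sl true A).card := by
  classical
  have h : A = (sl false A).image (fun x => (Fin.cons false x : Fin (n+1) → Bool)) ∪
      (sl true A).image (fun x => (Fin.cons true x : Fin (n+1) → Bool)) := by
    ext x
    simp only [mem_union, mem_image, mem_sl]
    constructor
    · intro hx
      rcases hb : x 0 with _ | _
      · left; refine ⟨Fin.tail x, ?_, ?_⟩ <;> (rw [← hb, Fin.cons_self_tail]; try exact hx)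
      · right; refine ⟨Fin.tail x, ?_, ?_⟩ <;> (rw [← hb, Fin.cons_self_tail]; try exact hx)
    · rintro (⟨y, hy, rfl⟩ | ⟨y, hy, rfl⟩) <;> exact hy
  have hinj : ∀ b : Bool, Function.Injective (fun x : Fin n → Bool => (Fin.cons b x : Fin (n+1) → Bool)) := by
    intro b x y hxy
    exact (Fin.cons_injective2 hxy).2
  conv_lhs => rw [h]
  rw [card_union_of_disjoint, card_image_of_injective _ (hinj _), card_image_of_injective _ (hinj _)]
  rw [Finset.disjoint_left]
  intro x hx hx'
  simp only [mem_image] at hx hx'
  obtain ⟨y, _, rfl⟩ := hx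
  obtain ⟨z, _, hz⟩ := hx'
  exact absurd (Fin.cons_injective2 hz).1 (by simp)

/-- Twice the number of edges inside `A`. -/
def e2 {n : ℕ} (A : Finset (Fin n → Bool)) : ℕ :=
  ∑ i : Fin n, (A.filter (fun x => Function.update x i (!x i) ∈ A)).card

lemma e2_zero (A : Finset (Fin 0 → Bool)) : e2 A = 0 := by simp [e2]

lemma e2_succ {n : ℕ} (A : Finset (Fin (n+1) → Bool)) :
    e2 A = e2 (sl false A) + e2 (sl true A) + 2 * (sl false A ∩ sl true A).card := by
  unfold e2
  rw [Fin.sum_univ_succ, card_sl]
  have h0 : sl false (A.filter (fun x => Function.update x 0 (!x 0) ∈ A)) = sl false A ∩ sl true A := by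
    ext x; simp
  have h1 : sl true (A.filter (fun x => Function.update x 0 (!x 0) ∈ A)) = sl false A ∩ sl true A := by
    ext x; simp [and_comm]
  rw [h0, h1]
  have h2 : ∀ i : Fin n, (A.filter (fun x => Function.update x i.succ (!x i.succ) ∈ A)).card =
      ((sl false A).filter (fun x => Function.update x i (!x i) ∈ sl false A)).card +
      ((sl true A).filter (fun x => Function.update x i (!x i) ∈ sl true A)).card := by
    intro i
    rw [card_sl]
    congr 1
    · congr 1; ext x; simp [Fin.cons_update]
    · congr 1; ext x; simp [Fin.cons_update]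
  rw [Finset.sum_congr rfl (fun i _ => h2 i), Finset.sum_add_distrib]
  ring

/-- Edge isoperimetric inequality in terms of the extremal function. -/
lemma e2_le {n : ℕ} (A : Finset (Fin n → Bool)) : e2 A ≤ E A.card := by
  induction n with
  | zero => rw [e2_zero]; exact Nat.zero_le _
  | succ n ih =>
    rw [e2_succ, card_sl]
    have h0 := ih (sl false A)
    have h1 := ih (sl true A)
    rcases le_total (sl true A).card (sl false A).card with h | h
    · have hs := E_superadd _ (sl false A).card (sl true A).card rfl h
      have hi : (sl false A ∩ sl true A).card ≤ (sl true A).card := card_le_card inter_subset_right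
      omega
    · have hs := E_superadd _ (sl true A).card (sl false A).card rfl h
      have hi : (sl false A ∩ sl true A).card ≤ (sl false A).card := card_le_card inter_subset_left
      rw [Nat.add_comm (sl true A).card] at hs
      omega

/-- `D|A|` minus twice the number of edges inside `A`. -/
def Phi {n : ℕ} (D : ℕ) (A : Finset (Fin n → Bool)) : ℤ := (D:ℤ) * A.card - e2 A

lemma ph_le_Phi {n : ℕ} (D : ℕ) (A : Finset (Fin n → Bool)) : ph D A.card ≤ Phi D A := by
  unfold ph Phi
  have := e2_le A
  have : (e2 A : ℤ) ≤ E A.card := by exact_mod_cast this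
  linarith

lemma Phi_sl {n : ℕ} (D : ℕ) (A : Finset (Fin (n+1) → Bool)) :
    Phi D A = Phi D (sl false A) + Phi D (sl true A) - 2 * ((sl false A ∩ sl true A).card : ℤ) := by
  unfold Phi
  rw [e2_succ, card_sl]
  push_cast; ring

lemma Phi_succ {n : ℕ} (D : ℕ) (A : Finset (Fin n → Bool)) : Phi (D+1) A = Phi D A + A.card := by
  unfold Phi; push_cast; ring

/-- `C` is a subcube of dimension `D`. -/
def IsSub : (n : ℕ) → ℕ → Finset (Fin n → Bool) → Prop
  | 0, D, C => D = 0 ∧ C = univ
  | (n+1), D, C => (∃ D', D = D'+1 ∧ IsSub n D' (sl false C) ∧ sl true C = sl false C) ∨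
      (∃ b : Bool, IsSub n D (sl b C) ∧ sl (!b) C = ∅)

lemma card_IsSub : ∀ (n D : ℕ) (C : Finset (Fin n → Bool)), IsSub n D C → C.card = 2^D := by
  intro n
  induction n with
  | zero =>
    rintro D C ⟨rfl, rfl⟩
    simp
  | succ n ih =>
    rintro D C (⟨D', rfl, h, h'⟩ | ⟨b, h, h'⟩)
    · rw [card_sl, h', ih _ _ h]; ring
    · cases b with
      | false => rw [card_sl, ih _ _ h]; rw [Bool.not_false] at h'; rw [h']; simp
      | true => rw [card_sl, ih _ _ h]; rw [Bool.not_true] at h'; rw [h']; simp

lemma card_identity {n : ℕ} (A B C : Finset (Fin n → Bool)) :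
    (A.card : ℤ) + B.card - 2 * (A ∩ B).card =
      ((C \ A).card + (C \ B).card - 2 * ((C \ A) ∩ (C \ B)).card) +
      ((A \ C).card + (B \ C).card - 2 * ((A \ C) ∩ (B \ C)).card) := by
  classical
  have key : ∀ S : Finset (Fin n → Bool), (S.card : ℤ) = ∑ x, if x ∈ S then (1:ℤ) else 0 := by
    intro S; simp
  rw [key A, key B, key (A ∩ B), key (C \ A), key (C \ B), key ((C \ A) ∩ (C \ B)), key (A \ C),
    key (B \ C), key ((A \ C) ∩ (B \ C))]
  simp only [Finset.mul_sum, ← Finset.sum_add_distrib, ← Finset.sum_sub_distrib]
  apply Finset.sum_congr rfl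
  intro x _
  by_cases hA : x ∈ A <;> by_cases hB : x ∈ B <;> by_cases hC : x ∈ C <;> simp [hA, hB, hC]

lemma K_lemma : ∀ (n D : ℕ) (C : Finset (Fin n → Bool)), IsSub n D C → ∀ A : Finset (Fin n → Bool),
    Phi D (C \ A) + Phi D (A \ C) - 2 * ((A \ C).card : ℤ) ≤ Phi D A := by
  intro n
  induction n with
  | zero =>
    rintro D C ⟨rfl, rfl⟩ A
    unfold Phi; simp [e2_zero]
  | succ n ih =>
    rintro D C (⟨D', rfl, h, h'⟩ | ⟨b, h, h'⟩) A
    · rw [Phi_succ, Phi_succ, Phi_succ, Phi_sl D' A, Phi_sl D' (C \ A), Phi_sl D' (A \ C)]
      have hc : ∀ b, sl b C = sl false C := by intro b; cases b <;> simp [h']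
      have h0 := ih D' _ h (sl false A)
      have h1 := ih D' _ h (sl true A)
      rw [card_sl A, card_sl (C \ A), card_sl (A \ C)]
      simp only [sl_sdiff, h']
      have hid := card_identity (sl false A) (sl true A) (sl false C)
      push_cast
      linarith
    · rw [Phi_sl D A, Phi_sl D (C \ A), Phi_sl D (A \ C)]
      have hc := ih D _ h (sl b A)
      rw [card_sl (A \ C)]
      simp only [sl_sdiff]
      cases b with
      | false =>
        rw [Bool.not_false] at h'
        rw [h']
        simp only [Finset.empty_sdiff, Finset.sdiff_empty, Finset.inter_empty, Finset.card_empty]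
        have hE : Phi D (∅ : Finset (Fin n → Bool)) = 0 := by
          unfold Phi e2; simp
        rw [hE]
        have hi : ((sl false A ∩ sl true A).card : ℤ) ≤
            ((sl false A \ sl false C) ∩ sl true A).card + (sl true A).card := by
          have : (sl false A ∩ sl true A).card ≤ (sl true A).card := card_le_card inter_subset_right
          omega
        push_cast
        linarith
      | true =>
        rw [Bool.not_true] at h'
        rw [h']
        simp only [Finset.empty_sdiff, Finset.sdiff_empty, Finset.empty_inter, Finset.card_empty]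
        have hE : Phi D (∅ : Finset (Fin n → Bool)) = 0 := by
          unfold Phi e2; simp
        rw [hE]
        have hi : ((sl false A ∩ sl true A).card : ℤ) ≤
            (sl false A ∩ (sl true A \ sl true C)).card + (sl false A).card := by
          have : (sl false A ∩ sl true A).card ≤ (sl false A).card := card_le_card inter_subset_left
          omega
        push_cast
        linarith

lemma ext_sl {n : ℕ} (C C' : Finset (Fin (n+1) → Bool)) (h0 : sl false C = sl false C')
    (h1 : sl true C = sl true C') : C = C' := by
  ext x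
  have hx : (Fin.cons (x 0) (Fin.tail x) : Fin (n+1) → Bool) = x := Fin.cons_self_tail x
  rcases hb : x 0 with _ | _
  · have := Finset.ext_iff.1 h0 (Fin.tail x)
    rw [mem_sl, mem_sl, ← hb, hx] at this
    exact this
  · have := Finset.ext_iff.1 h1 (Fin.tail x)
    rw [mem_sl, mem_sl, ← hb, hx] at this
    exact this

lemma inter_lemma : ∀ (n D : ℕ) (C C' : Finset (Fin n → Bool)), IsSub n D C → IsSub n D C' →
    C ≠ C' → 2 * (C ∩ C').card ≤ 2^D := by
  intro n
  induction n with
  | zero =>
    rintro D C C' ⟨_, rfl⟩ ⟨_, rfl⟩ hne
    exact absurd rfl hne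
  | succ n ih =>
    intro D C C' hC hC' hne
    rw [card_sl, sl_inter, sl_inter]
    rcases hC with ⟨D', hD, h, h'⟩ | ⟨b, h, h'⟩ <;> rcases hC' with ⟨D'', hD'', g, g'⟩ | ⟨c, g, g'⟩
    · have : D'' = D' := by omega
      subst this
      subst hD
      rw [h', g']
      have hne' : sl false C ≠ sl false C' := by
        intro he; apply hne; apply ext_sl _ _ he; rw [h', g', he]
      have := ih D'' _ _ h g hne'
      rw [pow_succ]; omega
    · -- C both, C' one
      subst hD
      have hc := card_IsSub _ _ _ h
      cases c with
      | false =>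
        rw [Bool.not_false] at g'
        rw [g']
        have : (sl false C ∩ sl false C').card ≤ (sl false C).card := card_le_card inter_subset_left
        rw [hc] at this
        simp only [Finset.inter_empty, Finset.card_empty]
        rw [pow_succ]; omega
      | true =>
        rw [Bool.not_true] at g'
        rw [g', h']
        have : (sl false C ∩ sl true C').card ≤ (sl false C).card := card_le_card inter_subset_left
        rw [hc] at this
        simp only [Finset.inter_empty, Finset.card_empty]
        rw [pow_succ]; omega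
    · subst hD''
      have hc := card_IsSub _ _ _ g
      cases b with
      | false =>
        rw [Bool.not_false] at h'
        rw [h']
        have : (sl false C ∩ sl false C').card ≤ (sl false C').card := card_le_card inter_subset_right
        rw [hc] at this
        simp only [Finset.empty_inter, Finset.card_empty]
        rw [pow_succ]; omega
      | true =>
        rw [Bool.not_true] at h'
        rw [g', h']
        have : (sl true C ∩ sl false C').card ≤ (sl false C').card := card_le_card inter_subset_right
        rw [hc] at this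
        simp only [Finset.empty_inter, Finset.card_empty]
        rw [pow_succ]; omega
    · by_cases hbc : b = c
      · subst hbc
        have hne' : sl b C ≠ sl b C' := by
          intro he; apply hne
          cases b with
          | false => rw [Bool.not_false] at h' g'; exact ext_sl _ _ he (by rw [h', g'])
          | true => rw [Bool.not_true] at h' g'; exact ext_sl _ _ (by rw [h', g']) he
        have := ih D _ _ h g hne'
        cases b with
        | false => rw [Bool.not_false] at h' g'; rw [h', g']; simpa using this
        | true => rw [Bool.not_true] at h' g'; rw [h', g']; simpa using this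
      · cases b <;> cases c
        · exact absurd rfl hbc
        · rw [Bool.not_false] at h'; rw [Bool.not_true] at g'; rw [h', g']; simp
        · rw [Bool.not_true] at h'; rw [Bool.not_false] at g'; rw [h', g']; simp
        · exact absurd rfl hbc

/-- The full lift of `C`. -/
def lift {n : ℕ} (C : Finset (Fin n → Bool)) : Finset (Fin (n+1) → Bool) :=
  univ.filter (fun x => Fin.tail x ∈ C)

lemma sl_lift {n : ℕ} (b : Bool) (C : Finset (Fin n → Bool)) : sl b (lift C) = C := by
  ext x; simp [lift]

lemma IsSub_lift {n D : ℕ} {C : Finset (Fin n → Bool)} (h : IsSub n D C) :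
    IsSub (n+1) (D+1) (lift C) := by
  left
  exact ⟨D, rfl, by rw [sl_lift]; exact h, by rw [sl_lift, sl_lift]⟩

/-- One-sided lift of `C`. -/
def put {n : ℕ} (b : Bool) (C : Finset (Fin n → Bool)) : Finset (Fin (n+1) → Bool) :=
  univ.filter (fun x => x 0 = b ∧ Fin.tail x ∈ C)

lemma sl_put {n : ℕ} (b : Bool) (C : Finset (Fin n → Bool)) : sl b (put b C) = C := by
  ext x; simp [put]

lemma sl_put' {n : ℕ} (b : Bool) (C : Finset (Fin n → Bool)) : sl (!b) (put b C) = ∅ := by
  ext x; simp [put]

lemma IsSub_put {n D : ℕ} {C : Finset (Fin n → Bool)} (b : Bool) (h : IsSub n D C) :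
    IsSub (n+1) D (put b C) := by
  right
  exact ⟨b, by rw [sl_put]; exact h, sl_put' b C⟩

/-- Subcubes in the usual sense: the coordinates in `S` are fixed to the values of `a`. -/
def subcube {n : ℕ} (S : Finset (Fin n)) (a : Fin n → Bool) : Finset (Fin n → Bool) :=
  univ.filter (fun x => ∀ i ∈ S, x i = a i)

lemma IsSub_subcube : ∀ (n D : ℕ) (C : Finset (Fin n → Bool)), IsSub n D C →
    ∃ (S : Finset (Fin n)) (a : Fin n → Bool), C = subcube S a := by
  intro n
  induction n with
  | zero =>
    rintro D C ⟨_, rfl⟩
    exact ⟨∅, default, by simp [subcube]⟩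
  | succ n ih =>
    rintro D C (⟨D', rfl, h, h'⟩ | ⟨b, h, h'⟩)
    · obtain ⟨S, a, ha⟩ := ih _ _ h
      refine ⟨S.map (Fin.succEmb n), Fin.cons false a, ?_⟩
      apply ext_sl
      · rw [ha]; ext x; simp [subcube]
      · rw [h', ha]; ext x; simp [subcube]
    · obtain ⟨S, a, ha⟩ := ih _ _ h
      refine ⟨insert 0 (S.map (Fin.succEmb n)), Fin.cons b a, ?_⟩
      cases b with
      | false =>
        rw [Bool.not_false] at h'
        apply ext_sl
        · rw [ha]; ext x; simp [subcube]
        · rw [h']; ext x; simp [subcube]
      | true =>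
        rw [Bool.not_true] at h'
        apply ext_sl
        · rw [h']; ext x; simp [subcube]
        · rw [ha]; ext x; simp [subcube]

end H44AB
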